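import Pool.Agent.Helper42.FLG.Spec

/-!
# Project FLG (MP_c98eff_gt), packet EQF: the equality case of the flag reaction term, basis free
-/

namespace Pool.Agent.Helper42.FLGE

open Finset Pool.Agent.Helper47.RFn Pool.Agent.Helper47.FLG

/-! ### consequences of the toolbox -/

/-- matrix of `R_z` -/
def Mz {n : ℕ} (R : T4 n) (z : Fin n → ℝ) : Matrix (Fin n) (Fin n) ℝ := fun i j => R4 R z (sb i) z (sb j)

lemma quad_zero {a b : ℝ} (h : ∀ t : ℝ, 0 ≤ t * a + t ^ 2 * b) : a = 0 := by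
  by_contra ha
  have hb : 0 ≤ b := by
    by_contra hb
    push Not at hb
    have := h 1
    have h2 := h (-1)
    nlinarith
  have h1 := h (-a / (b + 1))
  have hb1 : 0 < b + 1 := by linarith
  have : (-a / (b + 1)) * a + (-a / (b + 1)) ^ 2 * b = -(a ^ 2 / (b + 1) ^ 2) := by
    field_simp
    ring
  rw [this] at h1
  have : 0 < a ^ 2 / (b + 1) ^ 2 := by positivity
  linarith

section
variable {n : ℕ} (hR4T : G_R4T)
include hR4T

lemma r4sym {R : T4 n} (h : IsCurv R) (a b c d : Fin n → ℝ) : R4 R a b c d = R4 R c d a b :=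
  (((hR4T n).2.2.1 R h a b c d).2.2).1

lemma r4a {R : T4 n} (h : IsCurv R) (a b c d : Fin n → ℝ) : R4 R a b c d = - R4 R b a c d :=
  ((hR4T n).2.2.1 R h a b c d).1

lemma r4b {R : T4 n} (h : IsCurv R) (a b c d : Fin n → ℝ) : R4 R a b c d = - R4 R a b d c :=
  ((hR4T n).2.2.1 R h a b c d).2.1

lemma k2r4 (R : T4 n) (u v : Fin n → ℝ) : K2 R u v = R4 R u v u v := (hR4T n).2.2.2.1 R u v

lemma k2sym {R : T4 n} (h : IsCurv R) (u v : Fin n → ℝ) : K2 R u v = K2 R v u :=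
  (hR4T n).2.2.2.2.1 R h u v

lemma r4_zero {R : T4 n} (h : IsCurv R) (z b c : Fin n → ℝ) : R4 R z z b c = 0 := by
  have := r4a hR4T h z z b c
  linarith

lemma r4_zero' {R : T4 n} (h : IsCurv R) (z b c : Fin n → ℝ) : R4 R b c z z = 0 := by
  have := r4b hR4T h b c z z
  linarith

lemma r4_e2 (R : T4 n) (a b c d : Fin n → ℝ) : R4 R a b c d = ∑ j, b j * R4 R a (sb j) c d :=
  ((hR4T n).2.2.2.2.2.2.2.2.2.2.1 R a b c d).2.1

lemma r4_e4 (R : T4 n) (a b c d : Fin n → ℝ) : R4 R a b c d = ∑ j, d j * R4 R a b c (sb j) :=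
  ((hR4T n).2.2.2.2.2.2.2.2.2.2.1 R a b c d).2.2.2

lemma r4_sb (R : T4 n) (i j k l : Fin n) : R4 R (sb i) (sb j) (sb k) (sb l) = R i j k l :=
  (hR4T n).2.2.2.2.2.2.2.2.2.1 R i j k l

lemma l2 (R : T4 n) (a a' b c d : Fin n → ℝ) (s t : ℝ) :
    R4 R b (fun i => s * a i + t * a' i) c d = s * R4 R b a c d + t * R4 R b a' c d :=
  ((hR4T n).1 R a a' b c d s t).2.1

lemma l4 (R : T4 n) (a a' b c d : Fin n → ℝ) (s t : ℝ) :
    R4 R b c d (fun i => s * a i + t * a' i) = s * R4 R b c d a + t * R4 R b c d a' :=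
  ((hR4T n).1 R a a' b c d s t).2.2.2

lemma Mz_apply (R : T4 n) (z p q : Fin n → ℝ) : R4 R z p z q = dot p ((Mz R z).mulVec q) := by
  rw [r4_e2 hR4T]
  simp only [dot, Matrix.mulVec, dotProduct, Mz]
  refine Finset.sum_congr rfl fun i _ => ?_
  rw [r4_e4 hR4T]
  congr 1
  exact Finset.sum_congr rfl fun j _ => mul_comm _ _

lemma Mz_symm {R : T4 n} (h : IsCurv R) (z : Fin n → ℝ) : (Mz R z).IsSymm := by
  ext i j
  simp only [Matrix.transpose_apply, Mz]
  exact r4sym hR4T h _ _ _ _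

omit hR4T in
lemma dot_sb (i : Fin n) (v : Fin n → ℝ) : dot (sb i) v = v i := by
  simp [dot, sb]

/-- eigenvector equation as a matrix equation -/
lemma eig_iff (R : T4 n) (z q : Fin n → ℝ) (s : ℝ) :
    (∀ p, R4 R z p z q = s * dot p q) ↔ (Mz R z).mulVec q = s • q := by
  constructor
  · intro h
    ext i
    have := h (sb i)
    rw [Mz_apply hR4T, dot_sb, dot_sb] at this
    simpa using this
  · intro h p
    rw [Mz_apply hR4T, h]
    simp only [dot, Pi.smul_apply, smul_eq_mul, Finset.mul_sum]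
    exact Finset.sum_congr rfl fun i _ => by ring

end

/-! ### bounds and extremal vectors -/

section
variable {n : ℕ} {R : T4 n} {z x y : Fin n → ℝ}

lemma bounds (hR4T : G_R4T) (h : Ac R z x y) (q : Fin n → ℝ) (hq : dot q z = 0) :
    nrm q ≤ R4 R z q z q ∧ R4 R z q z q ≤ 4 * nrm q := by
  have hc := h.fg.1
  have hk : K2 R q z = R4 R z q z q := by rw [k2sym hR4T hc, k2r4 hR4T]
  have hx : K2 R x z = 4 := by rw [k2sym hR4T hc]; exact h.k4
  have hy : K2 R y z = 1 := by rw [k2sym hR4T hc]; exact h.k1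
  have hwq : wd q z = nrm q := by simp [wd, h.nz, hq]
  have hwx : wd x z = 1 := by simp [wd, h.nz, h.nx, dcomm x z, h.zx]
  have hwy : wd y z = 1 := by simp [wd, h.nz, h.ny, dcomm y z, h.zy]
  have f1 := h.fg.2 z x q
  have f2 := h.fg.2 z q y
  simp only [fl, hk, hx, hy, hwq, hwx, hwy] at f1 f2
  constructor <;> linarith

lemma eg_of_max (hR4T : G_R4T) (h : Ac R z x y) (q : Fin n → ℝ) (hq : dot q z = 0)
    (σ : ℝ) (c : ℝ) (hpos : ∀ p, dot p z = 0 → 0 ≤ σ * (c * nrm p - R4 R z p z p)) (hσ : σ ≠ 0)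
    (he : R4 R z q z q = c * nrm q) : Eg R z c q := by
  have hc := h.fg.1
  have key : ∀ p, dot p z = 0 → R4 R z p z q = c * dot p q := by
    intro p hp
    have : 2 * σ * (c * dot p q - R4 R z p z q) = 0 := by
      apply quad_zero (b := σ * (c * nrm p - R4 R z p z p))
      intro t
      have h1 := hpos (fun i => 1 * q i + t * p i) (by rw [dlin, hq, hp]; ring)
      rw [l2 hR4T, l4 hR4T, l4 hR4T, nrm_dot, dlin, dlin', dlin', he, ← nrm_dot, ← nrm_dot,
        r4sym hR4T hc z q z p, dcomm q p] at h1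
      nlinarith [h1]
    have h2 : c * dot p q - R4 R z p z q = 0 := by
      rcases mul_eq_zero.1 this with h3 | h3
      · exact absurd h3 (by simpa using hσ)
      · exact h3
    linarith
  refine ⟨hq, fun p => ?_⟩
  have h1 := key (fun i => 1 * p i + (-dot p z) * z i) (by
    rw [dlin, ← nrm_dot, h.nz]; ring)
  rw [l2 hR4T, dlin, r4_zero hR4T hc, dcomm z q, hq] at h1
  linarith

lemma eg4 (hR4T : G_R4T) (h : Ac R z x y) (q : Fin n → ℝ) (hq : dot q z = 0)
    (he : R4 R z q z q = 4 * nrm q) : Eg R z 4 q :=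
  eg_of_max hR4T h q hq 1 4 (fun p hp => by have := (bounds hR4T h p hp).2; linarith) one_ne_zero he

lemma eg1 (hR4T : G_R4T) (h : Ac R z x y) (q : Fin n → ℝ) (hq : dot q z = 0)
    (he : R4 R z q z q = nrm q) : Eg R z 1 q :=
  eg_of_max hR4T h q hq (-1) 1 (fun p hp => by have := (bounds hR4T h p hp).1; linarith)
    (by norm_num) (by linarith)

lemma egx (hR4T : G_R4T) (h : Ac R z x y) : Eg R z 4 x :=
  eg4 hR4T h x (by rw [dcomm]; exact h.zx) (by rw [← k2r4 hR4T, h.k4, h.nx]; ring)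

lemma egy (hR4T : G_R4T) (h : Ac R z x y) : Eg R z 1 y :=
  eg1 hR4T h y (by rw [dcomm]; exact h.zy) (by rw [← k2r4 hR4T, h.k1, h.ny])

/-- eigenvectors with different eigenvalues are orthogonal -/
lemma eg_orth (hR4T : G_R4T) (hc : IsCurv R) {s t : ℝ} {p q : Fin n → ℝ} (hp : Eg R z s p) (hq : Eg R z t q)
    (hst : s ≠ t) : dot p q = 0 := by
  have h1 := hp.2 q
  have h2 := hq.2 p
  rw [r4sym hR4T hc, dcomm q p] at h1
  have h3 : (s - t) * dot p q = 0 := by linarith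
  rcases mul_eq_zero.1 h3 with h4 | h4
  · exact absurd (sub_eq_zero.1 h4) hst
  · exact h4

/-- orthonormal eigenbasis with `O i0 = z`, `O i1 = x`, `O i2 = y` -/
structure Bas (R : T4 n) (z x y : Fin n → ℝ) (O : Fin n → Fin n → ℝ) (i0 i1 i2 : Fin n)
    (r : Fin n → ℝ) : Prop where
  on : ON O
  d01 : i0 ≠ i1
  d02 : i0 ≠ i2
  d12 : i1 ≠ i2
  o0 : O i0 = z
  o1 : O i1 = x
  o2 : O i2 = y
  eg : ∀ a p, R4 R z p z (O a) = r a * dot p (O a)

lemma Bas.r1 (hR4T : G_R4T) (h : Ac R z x y) {O : Fin n → Fin n → ℝ} {i0 i1 i2 : Fin n} {r : Fin n → ℝ}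
    (b : Bas R z x y O i0 i1 i2 r) : r i1 = 4 := by
  have h1 := b.eg i1 x
  rw [b.o1, ← nrm_dot, h.nx, ← k2r4 hR4T, h.k4] at h1
  linarith

lemma Bas.r2 (hR4T : G_R4T) (h : Ac R z x y) {O : Fin n → Fin n → ℝ} {i0 i1 i2 : Fin n} {r : Fin n → ℝ}
    (b : Bas R z x y O i0 i1 i2 r) : r i2 = 1 := by
  have h1 := b.eg i2 y
  rw [b.o2, ← nrm_dot, h.ny, ← k2r4 hR4T, h.k1] at h1
  linarith

lemma Bas.flc (hR4T : G_R4T) (hROT : G_ROT) (h : Ac R z x y) {O : Fin n → Fin n → ℝ} {i0 i1 i2 : Fin n}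
    {r : Fin n → ℝ} (b : Bas R z x y O i0 i1 i2 r) : FlC (rot O R) i0 i1 i2 r where
  fg := (hROT n O b.on).2.2.2.2.1 R h.fg
  d01 := b.d01
  d02 := b.d02
  d12 := b.d12
  dg := by
    intro p q hpq
    simp only [rot]
    rw [b.o0, b.eg, b.on, if_neg hpq, mul_zero]
  rr := by
    intro p
    simp only [rot]
    rw [b.o0, b.eg, b.on, if_pos rfl, mul_one]
  r2 := b.r2 hR4T h
  r1 := b.r1 hR4T h

lemma Q_swap (hc : IsCurv R) (a b c d : Fin n) : Q R b a d c = Q R a b c d := by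
  have hB : ∀ a b c d, BB R R b a d c = BB R R a b c d := by
    intro a b c d
    simp only [BB]
    rw [Finset.sum_comm]
    refine Finset.sum_congr rfl fun e _ => Finset.sum_congr rfl fun f _ => ?_
    rw [hc.pair b f a e, hc.pair d f c e]
  have hC : ∀ a b c d, BB R R b d a c = BB R R a c b d := by
    intro a b c d
    simp only [BB]
    refine Finset.sum_congr rfl fun e _ => Finset.sum_congr rfl fun f _ => ?_
    ring
  simp only [Q]
  rw [hB a b c d, hB a b d c, hC a b c d, hC a b d c]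

lemma K2Q (hR4T : G_R4T) (hc : IsCurv R) (u v : Fin n → ℝ) : K2 (Q R) u v = R4 (Q R) v u v u := by
  rw [k2r4 hR4T]
  simp only [R4]
  rw [Finset.sum_comm]
  refine Finset.sum_congr rfl fun i _ => Finset.sum_congr rfl fun j _ => ?_
  rw [Finset.sum_comm]
  refine Finset.sum_congr rfl fun k _ => Finset.sum_congr rfl fun l _ => ?_
  rw [Q_swap hc i j k l]
  ring

lemma Bas.dl (hR4T : G_R4T) (hROT : G_ROT) (h : Ac R z x y) {O : Fin n → Fin n → ℝ} {i0 i1 i2 : Fin n}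
    {r : Fin n → ℝ} (b : Bas R z x y O i0 i1 i2 r) : Dl (rot O R) i0 i1 i2 = Dz R z x y := by
  simp only [Dl, Dz]
  rw [(hROT n O b.on).2.2.2.2.2.1 R, K2Q hR4T h.fg.1, K2Q hR4T h.fg.1]
  simp only [rot]
  rw [b.o0, b.o1, b.o2]

/-- expansion in the basis -/
lemma expd (hR4T : G_R4T) (hROT : G_ROT) {O : Fin n → Fin n → ℝ} (on : ON O) (i j : Fin n)
    (p q : Fin n → ℝ) : R4 R (O i) p (O j) q =
      ∑ a, ∑ b, dot (O a) p * dot (O b) q * rot O R i a j b := by
  rw [← (hROT n O on).2.1 R]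
  have hs : ∀ i, (fun p => dot (O p) (O i)) = sb i := by
    intro i; ext p; rw [on]; simp [sb, eq_comm]
  rw [hs, hs, r4_e2 hR4T]
  refine Finset.sum_congr rfl fun a _ => ?_
  rw [r4_e4 hR4T, Finset.mul_sum]
  refine Finset.sum_congr rfl fun b _ => ?_
  rw [r4_sb hR4T]
  ring

/-- coordinates of eigenvectors -/
lemma Bas.coord (hR4T : G_R4T) (h : Ac R z x y) {O : Fin n → Fin n → ℝ} {i0 i1 i2 : Fin n}
    {r : Fin n → ℝ} (b : Bas R z x y O i0 i1 i2 r) {s : ℝ} {q : Fin n → ℝ} (hq : Eg R z s q) (a : Fin n)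
    (ha : dot (O a) q ≠ 0) : a ≠ i0 ∧ r a = s := by
  constructor
  · rintro rfl
    apply ha
    rw [b.o0, dcomm]; exact hq.1
  · have h1 := b.eg a q
    have h2 := hq.2 (O a)
    rw [r4sym hR4T h.fg.1, dcomm q] at h1
    have h3 : (r a - s) * dot (O a) q = 0 := by linarith
    rcases mul_eq_zero.1 h3 with h4 | h4
    · linarith
    · exact absurd h4 ha

lemma Bas.coord0 {O : Fin n → Fin n → ℝ} {i0 i1 i2 : Fin n}
    {r : Fin n → ℝ} (b : Bas R z x y O i0 i1 i2 r) {q : Fin n → ℝ} (hq : dot q z = 0) (a : Fin n)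
    (ha : dot (O a) q ≠ 0) : a ≠ i0 := by
  rintro rfl
  apply ha
  rw [b.o0, dcomm]; exact hq

/-- Parseval for a linear form `R(z, v, x, q)` -/
lemma parseval (hR4T : G_R4T) (hROT : G_ROT) {O : Fin n → Fin n → ℝ} (on : ON O) (u v w : Fin n → ℝ) :
    ∑ i, R4 R u (sb i) v w ^ 2 = ∑ a, R4 R u (O a) v w ^ 2 := by
  have h1 := (hROT n O on).1 (fun i => R4 R u (sb i) v w) (fun i => R4 R u (sb i) v w)
  have h2 : ∀ a, R4 R u (O a) v w = dot (O a) (fun i => R4 R u (sb i) v w) := by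
    intro a; rw [r4_e2 hR4T]; rfl
  have h3 : ∑ a, R4 R u (O a) v w ^ 2 = dot (fun a => dot (O a) (fun i => R4 R u (sb i) v w))
      (fun a => dot (O a) (fun i => R4 R u (sb i) v w)) := by
    simp only [h2, ← nrm_dot, nrm]
  rw [h3, h1, ← nrm_dot, nrm]

/-- existence of the basis -/
lemma exBas (hR4T : G_R4T) (h : Ac R z x y) : ∃ O i0 i1 i2 r, Bas R z x y O i0 i1 i2 r := by
  have hc := h.fg.1
  have hx := egx hR4T h
  have hy := egy hR4T h
  have hw : ON ![z, x, y] := by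
    intro i j
    fin_cases i <;> fin_cases j <;> simp [← nrm_dot, h.nz, h.nx, h.ny, h.zx, h.zy, h.xy, dcomm x z,
      dcomm y z, dcomm y x]
  obtain ⟨O, r, ι, on, hι, hO, hr, hM⟩ := eig_ext (Mz R z) (Mz_symm hR4T hc z) ![z, x, y] hw ![0, 4, 1] (by
    intro i
    fin_cases i
    · refine (eig_iff hR4T R z z 0).1 fun p => ?_
      rw [r4_zero' hR4T hc]; ring
    · exact (eig_iff hR4T R z x 4).1 hx.2
    · exact (eig_iff hR4T R z y 1).1 hy.2)
  exact ⟨O, ι 0, ι 1, ι 2, r, on, hι.ne (by decide), hι.ne (by decide), hι.ne (by decide),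
    hO 0, hO 1, hO 2, fun a p => (eig_iff hR4T R z (O a) (r a)).2 (hM a) p⟩

/-- existence of the basis with one more prescribed eigenvector -/
lemma exBas4 (hR4T : G_R4T) (h : Ac R z x y) {s : ℝ} {q : Fin n → ℝ} (hq : Eg R z s q) (nq : nrm q = 1)
    (qx : dot q x = 0) (qy : dot q y = 0) : ∃ O i0 i1 i2 i3 r, Bas R z x y O i0 i1 i2 r ∧ O i3 = q ∧
      r i3 = s ∧ i3 ≠ i0 ∧ i3 ≠ i1 ∧ i3 ≠ i2 := by
  have hc := h.fg.1
  have hx := egx hR4T h
  have hy := egy hR4T h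
  have hw : ON ![z, x, y, q] := by
    intro i j
    fin_cases i <;> fin_cases j <;> simp [← nrm_dot, h.nz, h.nx, h.ny, h.zx, h.zy, h.xy, dcomm x z,
      dcomm y z, dcomm y x, nq, qx, qy, hq.1, dcomm z q, dcomm x q, dcomm y q]
  obtain ⟨O, r, ι, on, hι, hO, hr, hM⟩ := eig_ext (Mz R z) (Mz_symm hR4T hc z) ![z, x, y, q] hw
      ![0, 4, 1, s] (by
    intro i
    fin_cases i
    · refine (eig_iff hR4T R z z 0).1 fun p => ?_
      rw [r4_zero' hR4T hc]; ring
    · exact (eig_iff hR4T R z x 4).1 hx.2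
    · exact (eig_iff hR4T R z y 1).1 hy.2
    · exact (eig_iff hR4T R z q s).1 hq.2)
  exact ⟨O, ι 0, ι 1, ι 2, ι 3, r, ⟨on, hι.ne (by decide), hι.ne (by decide), hι.ne (by decide),
    hO 0, hO 1, hO 2, fun a p => (eig_iff hR4T R z (O a) (r a)).2 (hM a) p⟩, hO 3, hr 3,
    hι.ne (by decide), hι.ne (by decide), hι.ne (by decide)⟩

lemma expd1 (hR4T : G_R4T) (hROT : G_ROT) {O : Fin n → Fin n → ℝ} (on : ON O) (i j k : Fin n)
    (p : Fin n → ℝ) : R4 R (O i) p (O j) (O k) = ∑ a, dot (O a) p * rot O R i a j k := by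
  rw [expd hR4T hROT on]
  refine Finset.sum_congr rfl fun a _ => ?_
  rw [Finset.sum_eq_single k]
  · rw [on, if_pos rfl, mul_one]
  · intro b _ hb
    rw [on, if_neg hb]; ring
  · intro hk; exact absurd (Finset.mem_univ _) hk

lemma tz {O : Fin n → Fin n → ℝ} (p q : Fin n → ℝ) (t : ℝ) (a c : Fin n)
    (hh : dot (O a) p ≠ 0 → dot (O c) q ≠ 0 → t = 0) : dot (O a) p * dot (O c) q * t = 0 := by
  by_cases h1 : dot (O a) p = 0
  · rw [h1]; ring
  by_cases h2 : dot (O c) q = 0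
  · rw [h2]; ring
  rw [hh h1 h2, mul_zero]

lemma l2s (hR4T : G_R4T) (R : T4 n) (a b c d : Fin n → ℝ) (s : ℝ) :
    R4 R b (fun i => s * a i) c d = s * R4 R b a c d := by
  have := l2 hR4T R a a b c d s 0
  simpa using this

lemma l4s (hR4T : G_R4T) (R : T4 n) (a b c d : Fin n → ℝ) (s : ℝ) :
    R4 R b c d (fun i => s * a i) = s * R4 R b c d a := by
  have := l4 hR4T R a a b c d s 0
  simpa using this

lemma k2s (hR4T : G_R4T) (R : T4 n) (u v : Fin n → ℝ) (s : ℝ) :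
    K2 R u (fun i => s * v i) = s ^ 2 * K2 R u v := by
  rw [k2r4 hR4T, k2r4 hR4T, l2s hR4T, l4s hR4T]; ring

/-- normalisation -/
lemma nrmz (hR4T : G_R4T) {s : ℝ} {q : Fin n → ℝ} (hq : Eg R z s q) :
    q = (fun _ => 0) ∨ ∃ (c : ℝ) (q' : Fin n → ℝ), c ≠ 0 ∧ q = (fun i => c * q' i) ∧ nrm q' = 1 ∧ Eg R z s q' := by
  by_cases h0 : nrm q = 0
  · left
    ext i
    have := (Finset.sum_eq_zero_iff_of_nonneg (fun i _ => sq_nonneg (q i))).1 h0 i (Finset.mem_univ _)
    exact pow_eq_zero_iff (two_ne_zero) |>.1 this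
  · right
    have hpos : 0 < nrm q := lt_of_le_of_ne (nrm_nn q) (Ne.symm h0)
    have hs : 0 < Real.sqrt (nrm q) := Real.sqrt_pos.2 hpos
    refine ⟨Real.sqrt (nrm q), fun i => (Real.sqrt (nrm q))⁻¹ * q i, hs.ne', ?_, ?_, ?_, ?_⟩
    · ext i; field_simp
    · rw [nrm_dot, dsmul, dsmul', ← nrm_dot]
      nth_rewrite 3 [← Real.sq_sqrt hpos.le]
      field_simp
    · rw [dsmul, hq.1, mul_zero]
    · intro p
      rw [l4s hR4T, hq.2, dsmul']; ring

theorem main (hR4T : G_R4T) (hROT : G_ROT) (hEQC : G_EQC) : G_EQF := by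
  intro n R z x y h
  have hc := h.fg.1
  obtain ⟨O, i0, i1, i2, r, b⟩ := exBas hR4T h
  have hE := hEQC n (rot O R) i0 i1 i2 r (b.flc hR4T hROT h)
  rw [b.dl hR4T hROT h] at hE
  refine ⟨hE.1, egx hR4T h, egy hR4T h, bounds hR4T h, eg4 hR4T h, eg1 hR4T h, fun hD => ?_⟩
  obtain ⟨E1, E2, E3, E4, E5, E6, E7⟩ := hE.2 hD
  have hcr : IsCurv (rot O R) := (hROT n O b.on).2.2.2.1 R hc
  have r1 := b.r1 hR4T h
  have r2 := b.r2 hR4T h
  have kxz : R4 R x z x z = 4 := by rw [← k2r4 hR4T, k2sym hR4T hc]; exact h.k4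
  have kyz : R4 R y z y z = 1 := by rw [← k2r4 hR4T, k2sym hR4T hc]; exact h.k1
  have ex : ∀ p q, R4 R z p x q = ∑ a, ∑ c, dot (O a) p * dot (O c) q * rot O R i0 a i1 c := by
    intro p q
    have := expd (R := R) hR4T hROT b.on i0 i1 p q
    rwa [b.o0, b.o1] at this
  have ey : ∀ p q, R4 R z p y q = ∑ a, ∑ c, dot (O a) p * dot (O c) q * rot O R i0 a i2 c := by
    intro p q
    have := expd (R := R) hR4T hROT b.on i0 i2 p q
    rwa [b.o0, b.o2] at this
  have ex' : ∀ p q, R4 R z q x p = ∑ a, ∑ c, dot (O a) p * dot (O c) q * rot O R i0 c i1 a := by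
    intro p q
    rw [ex, Finset.sum_comm]
    exact Finset.sum_congr rfl fun _ _ => Finset.sum_congr rfl fun _ _ => by ring
  have ey' : ∀ p q, R4 R z q y p = ∑ a, ∑ c, dot (O a) p * dot (O c) q * rot O R i0 c i2 a := by
    intro p q
    rw [ey, Finset.sum_comm]
    exact Finset.sum_congr rfl fun _ _ => Finset.sum_congr rfl fun _ _ => by ring
  refine ⟨⟨h.zx, fun p => ?_⟩, ⟨h.zy, fun p => ?_⟩, ?_, ?_, ?_, ?_, ?_, ?_, ?_, ?_, ?_, ?_⟩
  · have := expd1 (R := R) hR4T hROT b.on i1 i1 i0 p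
    rw [b.o0, b.o1] at this
    rw [this, Finset.sum_eq_single i0]
    · simp only [rot]
      rw [b.o0, b.o1, kxz, dcomm]; ring
    · intro a _ ha
      rw [hcr.pair i1 a i1 i0, (E1 a ha).2, mul_zero]
    · intro hk; exact absurd (Finset.mem_univ _) hk
  · have := expd1 (R := R) hR4T hROT b.on i2 i2 i0 p
    rw [b.o0, b.o2] at this
    rw [this, Finset.sum_eq_single i0]
    · simp only [rot]
      rw [b.o0, b.o2, kyz, dcomm]; ring
    · intro a _ ha
      rw [hcr.pair i2 a i2 i0, (E1 a ha).1, mul_zero]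
    · intro hk; exact absurd (Finset.mem_univ _) hk
  · rw [k2r4 hR4T]
    simp only [rot] at E2
    rwa [b.o1, b.o2] at E2
  · rw [parseval hR4T hROT b.on]
    simp only [rot] at E3
    rwa [b.o0, b.o1, b.o2] at E3
  · intro p q hp hq
    rw [eq_neg_iff_add_eq_zero, ex, ex', ← Finset.sum_add_distrib]
    refine Finset.sum_eq_zero fun a _ => ?_
    rw [← Finset.sum_add_distrib]
    refine Finset.sum_eq_zero fun c _ => ?_
    rw [← mul_add]
    refine tz p q _ a c fun h1 h2 => ?_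
    rcases E4 a c (b.coord hR4T h hp a h1).1 (b.coord hR4T h hq c h2).1 with h3 | h3
    · exact h3.2.2
    · rw [h3.1, h3.2, add_zero]
  · intro p q s hp hq hs
    have h0 : ∀ a c, dot (O a) p ≠ 0 → dot (O c) q ≠ 0 → rot O R i0 a i1 c = 0 ∧ rot O R i0 c i1 a = 0 := by
      intro a c h1 h2
      rcases E4 a c (b.coord0 hp a h1) (b.coord hR4T h hq c h2).1 with h3 | h3
      · exact absurd ((b.coord hR4T h hq c h2).2.symm.trans h3.2.1) hs
      · exact h3
    constructor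
    · rw [ex]
      exact Finset.sum_eq_zero fun a _ => Finset.sum_eq_zero fun c _ =>
        tz p q _ a c fun h1 h2 => (h0 a c h1 h2).1
    · rw [ex']
      exact Finset.sum_eq_zero fun a _ => Finset.sum_eq_zero fun c _ =>
        tz p q _ a c fun h1 h2 => (h0 a c h1 h2).2
  · intro p q hp hq
    rw [← sub_eq_zero, ey, ey', Finset.mul_sum, ← Finset.sum_sub_distrib]
    refine Finset.sum_eq_zero fun a _ => ?_
    rw [Finset.mul_sum, ← Finset.sum_sub_distrib]
    refine Finset.sum_eq_zero fun c _ => ?_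
    have : dot (O a) p * dot (O c) q * rot O R i0 a i2 c - 2 * (dot (O a) p * dot (O c) q * rot O R i0 c i2 a)
      = dot (O a) p * dot (O c) q * (rot O R i0 a i2 c - 2 * rot O R i0 c i2 a) := by ring
    rw [this]
    refine tz p q _ a c fun h1 h2 => ?_
    have ha := (b.coord hR4T h hp a h1).2
    rcases E5 a c (b.coord hR4T h hp a h1).1 (b.coord hR4T h hq c h2).1 with h3 | h3 | h3
    · rw [h3.2.2]; ring
    · rw [h3.1] at ha; norm_num at ha
    · rw [h3.1, h3.2]; ring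
  · intro p q hp hq
    rw [ey]
    refine Finset.sum_eq_zero fun a _ => Finset.sum_eq_zero fun c _ => tz p q _ a c fun h1 h2 => ?_
    have ha := (b.coord hR4T h hp a h1).2
    have hc' := (b.coord hR4T h hq c h2).2
    rcases E5 a c (b.coord hR4T h hp a h1).1 (b.coord hR4T h hq c h2).1 with h3 | h3 | h3
    · rw [h3.1] at ha; norm_num at ha
    · rw [h3.2.1] at hc'; norm_num at hc'
    · exact h3.1
  · intro p q hp hq
    rw [ey]
    refine Finset.sum_eq_zero fun a _ => Finset.sum_eq_zero fun c _ => tz p q _ a c fun h1 h2 => ?_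
    have ha := (b.coord hR4T h hp a h1).2
    have hc' := (b.coord hR4T h hq c h2).2
    rcases E5 a c (b.coord hR4T h hp a h1).1 (b.coord hR4T h hq c h2).1 with h3 | h3 | h3
    · rw [h3.2.1] at hc'; norm_num at hc'
    · rw [h3.1] at ha; norm_num at ha
    · exact h3.1
  · intro p q s hp hq hs1 hs4
    have h0 : ∀ a c, dot (O a) p ≠ 0 → dot (O c) q ≠ 0 → rot O R i0 a i2 c = 0 ∧ rot O R i0 c i2 a = 0 := by
      intro a c h1 h2
      have hc' := (b.coord hR4T h hq c h2).2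
      rcases E5 a c (b.coord0 hp a h1) (b.coord hR4T h hq c h2).1 with h3 | h3 | h3
      · exact absurd (hc'.symm.trans h3.2.1) hs1
      · exact absurd (hc'.symm.trans h3.2.1) hs4
      · exact h3
    constructor
    · rw [ey]
      exact Finset.sum_eq_zero fun a _ => Finset.sum_eq_zero fun c _ =>
        tz p q _ a c fun h1 h2 => (h0 a c h1 h2).1
    · rw [ey']
      exact Finset.sum_eq_zero fun a _ => Finset.sum_eq_zero fun c _ =>
        tz p q _ a c fun h1 h2 => (h0 a c h1 h2).2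
  · intro q s hq hs hqx
    have hqy : dot q y = 0 := eg_orth hR4T hc hq (egy hR4T h) hs
    rcases nrmz hR4T hq with rfl | ⟨c, q', hc0, rfl, hn, hq'⟩
    · rw [k2r4 hR4T, k2r4 hR4T]; simp [R4]
    · rw [dsmul] at hqx hqy
      have hqx' : dot q' x = 0 := (mul_eq_zero.1 hqx).resolve_left hc0
      have hqy' : dot q' y = 0 := (mul_eq_zero.1 hqy).resolve_left hc0
      obtain ⟨P, j0, j1, j2, j3, ρ, b', hP, hρ, n0, n1, n2⟩ := exBas4 hR4T h hq' hn hqx' hqy'
      have hE' := hEQC n (rot P R) j0 j1 j2 ρ (b'.flc hR4T hROT h)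
      rw [b'.dl hR4T hROT h] at hE'
      have h6 := (hE'.2 hD).2.2.2.2.2.1 j3 n0 n1 n2 (by rw [hρ]; exact hs)
      simp only [rot] at h6
      rw [b'.o1, b'.o2, hP, ← k2r4 hR4T, ← k2r4 hR4T] at h6
      rw [k2s hR4T, k2s hR4T, ← h6]; ring
  · intro q hq hqy
    have hqx : dot q x = 0 := eg_orth hR4T hc hq (egx hR4T h) (by norm_num)
    rcases nrmz hR4T hq with rfl | ⟨c, q', hc0, rfl, hn, hq'⟩
    · rw [k2r4 hR4T, k2r4 hR4T]; simp [R4]
    · rw [dsmul] at hqx hqy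
      have hqx' : dot q' x = 0 := (mul_eq_zero.1 hqx).resolve_left hc0
      have hqy' : dot q' y = 0 := (mul_eq_zero.1 hqy).resolve_left hc0
      obtain ⟨P, j0, j1, j2, j3, ρ, b', hP, hρ, n0, n1, n2⟩ := exBas4 hR4T h hq' hn hqx' hqy'
      have hE' := hEQC n (rot P R) j0 j1 j2 ρ (b'.flc hR4T hROT h)
      rw [b'.dl hR4T hROT h] at hE'
      have h7 := (hE'.2 hD).2.2.2.2.2.2 j3 n0 n1 n2 hρ
      simp only [rot] at h7
      rw [b'.o0, b'.o1, b'.o2, hP, ← k2r4 hR4T, ← k2r4 hR4T] at h7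
      have hp1 := parseval (R := R) hR4T hROT b'.on z x q'
      have hp2 := parseval (R := R) hR4T hROT b'.on z y q'
      rw [← hp1, ← hp2] at h7
      simp only [k2s hR4T, l4s hR4T, mul_pow, ← Finset.mul_sum]
      linear_combination c ^ 2 * h7

end

end Pool.Agent.Helper42.FLGE

namespace Pool.Agent.Helper47.FLG

theorem g_EQF (hR4T : G_R4T) (hROT : G_ROT) (hEQC : G_EQC) : G_EQF :=
  Pool.Agent.Helper42.FLGE.main hR4T hROT hEQC

end Pool.Agent.Helper47.FLG
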