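import Pool.Agent.Helper47.FLG.Fun
import Pool.Agent.Helper56.RFn.DETn2

/-!
# Project FLG (MP_c98eff_gt), packet GDV: the divergence theorem on the sphere
-/

namespace Pool.Agent.Helper42.FLGV

open Finset Pool.Agent.Helper47.RFn Pool.Agent.Helper73.RFn Pool.Agent.Helper47.FLG MeasureTheory

variable {n : ℕ}

theorem ae_ne : ∀ᵐ x ∂((volume : Measure (EE n)).restrict (Metric.ball (0 : EE n) 1)), x ≠ 0 := by
  refine ae_restrict_of_ae ?_
  rw [ae_iff]
  simp

theorem integ_congr {f g : EE n → ℝ} (h : ∀ x, x ≠ 0 → f x = g x) : integ f = integ g := by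
  unfold integ
  congr 1
  refine integral_congr_ae ?_
  filter_upwards [ae_ne] with x hx
  exact h x hx

/-- derivative along a coordinate line -/
theorem line_deriv {f : EE n → ℝ} (hf : Sm f) {x : EE n} (hx : x ≠ 0) (i : Fin (n + 1)) :
    HasDerivAt (fun s : ℝ => f (x + s • EuclideanSpace.single i (1 : ℝ))) (pd i f x) 0 := by
  have h1 : ContDiffAt ℝ oo f x := hf.cd.contDiffAt (isOpen_compl_singleton.mem_nhds hx)
  have h2 : HasFDerivAt f (fderiv ℝ f x) x := (h1.differentiableAt (by simp)).hasFDerivAt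
  have h3 : HasDerivAt (fun s : ℝ => x + s • EuclideanSpace.single i (1 : ℝ))
      (EuclideanSpace.single i (1 : ℝ)) 0 := by
    simpa using ((hasDerivAt_id (0 : ℝ)).smul_const (EuclideanSpace.single i (1 : ℝ) : EE n)).const_add x
  have h4 : HasFDerivAt f (fderiv ℝ f x) ((fun s : ℝ => x + s • EuclideanSpace.single i (1 : ℝ)) 0) := by
    simpa using h2
  exact h4.comp_hasDerivAt 0 h3

/-- derivative of the volume density -/
theorem ed_D (hC6 : Goal_C6) (hFRF : Goal_FRF) {A θ : MF n} (hF : Frm A θ) {x : EE n} (hx : x ≠ 0)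
    (i : Fin (n + 1)) : ed i (fun y => Real.sqrt (gOf θ y).det) x =
      Real.sqrt (gOf θ x).det * ∑ b, ∑ j, A x b j * ed i (fun y => θ y j b) x := by
  obtain ⟨hM, -, hθA, -⟩ := hFRF n A θ hF
  obtain ⟨hdet, -, hsD, -⟩ := hC6 n (gOf θ) hM
  set γ : ℝ → EE n := fun s => x + s • EuclideanSpace.single i (1 : ℝ) with hγ
  have hγ0 : γ 0 = x := by simp [hγ]
  have h1 := Pool.Agent.Helper56.RFn.DETn2.hasDerivWithinAt_det (I := Set.univ) (t := 0)
    (fun s => θ (γ s)) (fun j b => pd i (fun y => θ y j b) x)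
    (fun j b => (line_deriv (hF.smt j b) hx i).hasDerivWithinAt)
  rw [hasDerivWithinAt_univ] at h1
  simp only [hγ0] at h1
  have hadj : ∀ b j, (θ x).adjugate b j = (θ x).det * A x b j := by
    intro b j
    have h2 : (θ x).adjugate = (θ x).det • A x := by
      have h3 : (θ x).adjugate * (θ x * A x) = (θ x).adjugate := by rw [hθA, mul_one]
      rw [← h3, ← mul_assoc, Matrix.adjugate_mul, Matrix.smul_mul, one_mul]
    rw [h2]; rfl
  have hdd : ∀ y, (gOf θ y).det = (θ y).det ^ 2 := by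
    intro y
    unfold gOf
    rw [Matrix.det_mul, Matrix.det_transpose, sq]
  have hpos : 0 < (θ x).det ^ 2 := by rw [← hdd]; exact hdet x
  set S : ℝ := ∑ b, ∑ j, A x b j * pd i (fun y => θ y j b) x with hS
  have h2 : ∑ b, ∑ j, (θ x).adjugate b j * pd i (fun y => θ y j b) x = (θ x).det * S := by
    rw [hS, Finset.mul_sum]
    refine Finset.sum_congr rfl fun b _ => ?_
    rw [Finset.mul_sum]
    refine Finset.sum_congr rfl fun j _ => ?_
    rw [hadj]; ring
  rw [h2] at h1
  have h5 : HasDerivAt (fun s => (θ (γ s)).det ^ 2) (2 * (θ x).det * ((θ x).det * S)) 0 := by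
    have := h1.fun_pow 2
    simpa [hγ0] using this
  have h6 := h5.sqrt (by simpa [hγ0] using hpos.ne')
  have h7 := line_deriv hsD hx i
  have hfun : (fun s : ℝ => Real.sqrt (gOf θ (x + s • EuclideanSpace.single i (1 : ℝ))).det) =
      fun s => Real.sqrt ((θ (γ s)).det ^ 2) := by
    funext s
    rw [hdd]
  rw [hfun] at h7
  have h8 := h7.unique h6
  simp only [hγ0] at h8
  have h9 : Real.sqrt ((θ x).det ^ 2) ≠ 0 := (Real.sqrt_pos.2 hpos).ne'
  have h10 : Real.sqrt ((θ x).det ^ 2) * Real.sqrt ((θ x).det ^ 2) = (θ x).det ^ 2 :=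
    Real.mul_self_sqrt hpos.le
  have h11 : pd i (fun y => Real.sqrt (gOf θ y).det) x = Real.sqrt ((θ x).det ^ 2) * S := by
    rw [h8, div_eq_iff (by positivity)]
    linear_combination (-2 * S) * h10
  unfold ed
  rw [h11, hdd, hS]
  simp only [Finset.mul_sum]
  refine Finset.sum_congr rfl fun b _ => Finset.sum_congr rfl fun j _ => ?_
  ring

/-- the derivative of `A θ = 1` -/
theorem dinv (hC1 : Goal_C1) (hC2 : Goal_C2) {A θ : MF n} (hF : Frm A θ) (x : EE n) (i b : Fin (n + 1)) :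
    ∑ j, (ed i (fun y => A y b j) x * θ x j b + A x b j * ed i (fun y => θ y j b) x) = 0 := by
  obtain ⟨c1, -, -, -, c5, -, c7, -⟩ := hC2 n
  have hmul := (hC1 n).2.2.2.1
  have h1 : (fun y => ∑ j, A y b j * θ y j b) = fun _ => (1 : ℝ) := by
    funext y
    have := congrFun (congrFun (hF.inv y) b) b
    rw [Matrix.mul_apply] at this
    rw [this]; simp
  have h2 := c7 (Fin (n + 1)) univ (fun j y => A y b j * θ y j b) i x
    (fun j _ => hmul _ _ (hF.smA b j) (hF.smt j b))
  rw [h1, c1] at h2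
  rw [h2]
  exact Finset.sum_congr rfl fun j _ => (c5 i _ _ x (hF.smA b j) (hF.smt j b)).symm

/-- trace of the connection -/
theorem trG {A θ : MF n} (hθA : ∀ x, θ x * A x = 1) (c : Fin (n + 1)) (x : EE n) :
    ∑ a, Gamc A θ a a c x = (∑ a, ∑ j, Fdc A c (fun y => A y a j) x * θ x j a)
      - (∑ i, ed i (fun y => A y c i) x) + (n : ℝ) * nfc A c x := by
  have h1 : ∀ a, Gamc A θ a a c x = Cc A θ c a a x := by
    intro a
    have h2 : Cc A θ a a c x = 0 := by
      unfold Cc
      simp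
    have h3 : Cc A θ a c a x = - Cc A θ c a a x := by
      unfold Cc
      rw [neg_add, ← Finset.sum_neg_distrib]
      congr 1
      · exact Finset.sum_congr rfl fun j _ => by ring
      · ring
    unfold Gamc
    rw [h2, h3]; ring
  rw [Finset.sum_congr rfl fun a _ => h1 a]
  have h4 : ∑ a, ∑ j, Fdc A a (fun y => A y c j) x * θ x j a = ∑ i, ed i (fun y => A y c i) x := by
    have h5 : ∀ i j, ∑ a, θ x j a * A x a i = if j = i then 1 else 0 := by
      intro i j
      have := congrFun (congrFun (hθA x) j) i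
      rw [Matrix.mul_apply, Matrix.one_apply] at this
      exact this
    have h6 : ∑ a, ∑ j, Fdc A a (fun y => A y c j) x * θ x j a =
        ∑ j, ∑ i, (∑ a, θ x j a * A x a i) * ed i (fun y => A y c j) x := by
      rw [Finset.sum_comm]
      refine Finset.sum_congr rfl fun j _ => ?_
      simp only [Fdc, Finset.sum_mul]
      rw [Finset.sum_comm]
      exact Finset.sum_congr rfl fun i _ => Finset.sum_congr rfl fun a _ => by ring
    rw [h6]
    refine Finset.sum_congr rfl fun j _ => ?_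
    simp only [h5]
    simp
  have h7 : ∀ a, Cc A θ c a a x = (∑ j, Fdc A c (fun y => A y a j) x * θ x j a)
      - (∑ j, Fdc A a (fun y => A y c j) x * θ x j a)
      + (nfc A c x - nfc A a x * (if c = a then 1 else 0)) := by
    intro a
    unfold Cc
    rw [← Finset.sum_sub_distrib]
    congr 1
    · exact Finset.sum_congr rfl fun j _ => by ring
    · simp
  rw [Finset.sum_congr rfl fun a _ => h7 a, Finset.sum_add_distrib, Finset.sum_sub_distrib, h4,
    Finset.sum_sub_distrib]
  congr 1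
  simp
  ring

/-- the divergence as a sum of derivatives -/
theorem claim (hC1 : Goal_C1) (hC2 : Goal_C2) (hC6 : Goal_C6) (hFRF : Goal_FRF) {A θ : MF n}
    (hF : Frm A θ) (w : Fin (n + 1) → EE n → ℝ) (hw : ∀ a, Sm (w a)) {x : EE n} (hx : x ≠ 0) :
    (∑ a, Fdc A a (w a) x - ∑ a, ∑ c, Gamc A θ a a c x * w c x) * Real.sqrt (gOf θ x).det =
      ∑ i, (ed i (fun y => Real.sqrt (gOf θ y).det * ∑ a, w a y * A y a i) x
        - (n : ℝ) * (nn i x * (Real.sqrt (gOf θ x).det * ∑ a, w a x * A x a i))) := by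
  obtain ⟨hM, -, hθA, -⟩ := hFRF n A θ hF
  obtain ⟨hdet, -, hsD, -⟩ := hC6 n (gOf θ) hM
  obtain ⟨c1, -, -, -, c5, -, c7, -⟩ := hC2 n
  have hmul := (hC1 n).2.2.2.1
  have hsum := (hC1 n).2.2.2.2.2.1
  set D : EE n → ℝ := fun y => Real.sqrt (gOf θ y).det with hD
  have hWs : ∀ i, Sm (fun y => ∑ a, w a y * A y a i) := fun i =>
    hsum _ _ _ fun a _ => hmul _ _ (hw a) (hF.smA a i)
  have hedW : ∀ i, ed i (fun y => ∑ a, w a y * A y a i) x =
      ∑ a, (ed i (w a) x * A x a i + w a x * ed i (fun y => A y a i) x) := by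
    intro i
    rw [c7 (Fin (n + 1)) univ (fun a y => w a y * A y a i) i x fun a _ => hmul _ _ (hw a) (hF.smA a i)]
    exact Finset.sum_congr rfl fun a _ => c5 i _ _ x (hw a) (hF.smA a i)
  have hedDW : ∀ i, ed i (fun y => D y * ∑ a, w a y * A y a i) x =
      D x * (∑ b, ∑ j, A x b j * ed i (fun y => θ y j b) x) * (∑ a, w a x * A x a i)
        + D x * ∑ a, (ed i (w a) x * A x a i + w a x * ed i (fun y => A y a i) x) := by
    intro i
    rw [c5 i D _ x hsD (hWs i), hedW, ed_D hC6 hFRF hF hx]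
  have hdi : ∀ i, (∑ b, ∑ j, A x b j * ed i (fun y => θ y j b) x) =
      - ∑ b, ∑ j, ed i (fun y => A y b j) x * θ x j b := by
    intro i
    rw [← Finset.sum_neg_distrib]
    refine Finset.sum_congr rfl fun b _ => ?_
    have := dinv hC1 hC2 hF x i b
    rw [Finset.sum_add_distrib] at this
    linarith
  -- the four sums
  set T : Fin (n + 1) → ℝ := fun i => ∑ b, ∑ j, ed i (fun y => A y b j) x * θ x j b with hT
  have e1 : ∀ c, (∑ a, ∑ j, Fdc A c (fun y => A y a j) x * θ x j a) = ∑ i, A x c i * T i := by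
    intro c
    calc (∑ a, ∑ j, Fdc A c (fun y => A y a j) x * θ x j a)
        = ∑ a, ∑ j, ∑ i, A x c i * (ed i (fun y => A y a j) x * θ x j a) := by
          simp only [Fdc, Finset.sum_mul]
          exact Finset.sum_congr rfl fun a _ => Finset.sum_congr rfl fun j _ =>
            Finset.sum_congr rfl fun i _ => by ring
      _ = ∑ a, ∑ i, ∑ j, A x c i * (ed i (fun y => A y a j) x * θ x j a) :=
          Finset.sum_congr rfl fun a _ => Finset.sum_comm
      _ = ∑ i, ∑ a, ∑ j, A x c i * (ed i (fun y => A y a j) x * θ x j a) := Finset.sum_comm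
      _ = ∑ i, A x c i * T i := by simp only [hT, Finset.mul_sum]
  have s1 : ∑ i, D x * (∑ b, ∑ j, A x b j * ed i (fun y => θ y j b) x) * (∑ a, w a x * A x a i) =
      - (D x * ∑ c, (∑ a, ∑ j, Fdc A c (fun y => A y a j) x * θ x j a) * w c x) := by
    calc ∑ i, D x * (∑ b, ∑ j, A x b j * ed i (fun y => θ y j b) x) * (∑ a, w a x * A x a i)
        = ∑ i, ∑ c, -(D x * ((A x c i * T i) * w c x)) := by
          refine Finset.sum_congr rfl fun i _ => ?_
          rw [hdi i, Finset.mul_sum]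
          exact Finset.sum_congr rfl fun c _ => by simp only [hT]; ring
      _ = ∑ c, ∑ i, -(D x * ((A x c i * T i) * w c x)) := Finset.sum_comm
      _ = _ := by
          rw [Finset.mul_sum, ← Finset.sum_neg_distrib]
          refine Finset.sum_congr rfl fun c _ => ?_
          rw [e1, Finset.sum_mul, Finset.mul_sum, ← Finset.sum_neg_distrib]
  have s2 : ∑ i, ∑ a, ed i (w a) x * A x a i = ∑ a, Fdc A a (w a) x := by
    rw [Finset.sum_comm]
    simp only [Fdc]
    exact Finset.sum_congr rfl fun a _ => Finset.sum_congr rfl fun i _ => by ring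
  have s3 : ∑ i, ∑ a, w a x * ed i (fun y => A y a i) x =
      ∑ c, (∑ i, ed i (fun y => A y c i) x) * w c x := by
    rw [Finset.sum_comm]
    refine Finset.sum_congr rfl fun a _ => ?_
    rw [Finset.sum_mul]
    exact Finset.sum_congr rfl fun i _ => by ring
  have s4 : ∑ i, nn i x * (D x * ∑ a, w a x * A x a i) = D x * ∑ c, nfc A c x * w c x := by
    calc ∑ i, nn i x * (D x * ∑ a, w a x * A x a i)
        = ∑ i, ∑ c, D x * (A x c i * nn i x * w c x) := by
          refine Finset.sum_congr rfl fun i _ => ?_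
          simp only [Finset.mul_sum]
          exact Finset.sum_congr rfl fun c _ => by ring
      _ = ∑ c, ∑ i, D x * (A x c i * nn i x * w c x) := Finset.sum_comm
      _ = _ := by
          simp only [nfc, Finset.mul_sum, Finset.sum_mul]
  have s5 : ∑ a, ∑ c, Gamc A θ a a c x * w c x =
      (∑ c, (∑ a, ∑ j, Fdc A c (fun y => A y a j) x * θ x j a) * w c x)
        - (∑ c, (∑ i, ed i (fun y => A y c i) x) * w c x) + (n : ℝ) * ∑ c, nfc A c x * w c x := by
    rw [Finset.sum_comm, Finset.mul_sum, ← Finset.sum_sub_distrib, ← Finset.sum_add_distrib]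
    refine Finset.sum_congr rfl fun c _ => ?_
    rw [← Finset.sum_mul, trG hθA]
    ring
  have s6 : ∑ i, (ed i (fun y => D y * ∑ a, w a y * A y a i) x
        - (n : ℝ) * (nn i x * (D x * ∑ a, w a x * A x a i))) =
      (∑ i, D x * (∑ b, ∑ j, A x b j * ed i (fun y => θ y j b) x) * (∑ a, w a x * A x a i))
        + D x * (∑ i, ∑ a, ed i (w a) x * A x a i) + D x * (∑ i, ∑ a, w a x * ed i (fun y => A y a i) x)
        - (n : ℝ) * ∑ i, nn i x * (D x * ∑ a, w a x * A x a i) := by
    rw [Finset.mul_sum, Finset.mul_sum, Finset.mul_sum, ← Finset.sum_add_distrib,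
      ← Finset.sum_add_distrib, ← Finset.sum_sub_distrib]
    refine Finset.sum_congr rfl fun i _ => ?_
    rw [hedDW, Finset.sum_add_distrib]
    ring
  rw [s6, s1, s2, s3, s4, s5]
  ring

theorem main (hC1 : Goal_C1) (hC2 : Goal_C2) (hC4 : Goal_C4) (hC6 : Goal_C6) (hFRF : Goal_FRF) :
    G_GDV := by
  intro n _ A θ hF w hw
  obtain ⟨hM, -, hθA, -⟩ := hFRF n A θ hF
  obtain ⟨hdet, -, hsD, -⟩ := hC6 n (gOf θ) hM
  have hmul := (hC1 n).2.2.2.1
  have hsum := (hC1 n).2.2.2.2.2.1
  have hed := (hC1 n).2.2.2.2.2.2.2.2.1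
  have hnn := (hC1 n).2.2.2.2.2.2.2.2.2.2.2
  obtain ⟨-, hint, -, -, hdiv, -⟩ := hC4 n
  rw [integ_congr fun x hx => claim hC1 hC2 hC6 hFRF hF w hw hx]
  have hDW : ∀ i, Sm (fun y => Real.sqrt (gOf θ y).det * ∑ a, w a y * A y a i) := fun i =>
    hmul _ _ hsD (hsum _ _ _ fun a _ => hmul _ _ (hw a) (hF.smA a i))
  have h1 : ∀ i, IntegrableOn (ed i (fun y => Real.sqrt (gOf θ y).det * ∑ a, w a y * A y a i))
      (Metric.ball (0 : EE n) 1) := fun i => hint _ (hed _ i (hDW i))
  have h2 : ∀ i, IntegrableOn (fun x => nn i x * (Real.sqrt (gOf θ x).det * ∑ a, w a x * A x a i))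
      (Metric.ball (0 : EE n) 1) := fun i => hint _ (hmul _ _ (hnn i) (hDW i))
  have h3 : ∀ i, ∫ x in Metric.ball (0 : EE n) 1,
      (ed i (fun y => Real.sqrt (gOf θ y).det * ∑ a, w a y * A y a i) x
        - (n : ℝ) * (nn i x * (Real.sqrt (gOf θ x).det * ∑ a, w a x * A x a i))) = 0 := by
    intro i
    rw [integral_sub (h1 i) ((h2 i).const_mul _), integral_const_mul]
    have h4 := hdiv i _ (hDW i)
    unfold integ at h4
    have h5 : (0 : ℝ) < (n : ℝ) + 1 := by positivity
    have h6 : ((n : ℝ) + 1) * ((∫ x in Metric.ball (0 : EE n) 1,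
        ed i (fun y => Real.sqrt (gOf θ y).det * ∑ a, w a y * A y a i) x) - (n : ℝ) *
          ∫ x in Metric.ball (0 : EE n) 1,
            nn i x * (Real.sqrt (gOf θ x).det * ∑ a, w a x * A x a i)) = 0 := by
      rw [mul_sub]
      linarith
    exact (mul_eq_zero.1 h6).resolve_left h5.ne'
  have h8 : ∀ i ∈ (univ : Finset (Fin (n + 1))), Integrable
      (fun x => ed i (fun y => Real.sqrt (gOf θ y).det * ∑ a, w a y * A y a i) x
        - (n : ℝ) * (nn i x * (Real.sqrt (gOf θ x).det * ∑ a, w a x * A x a i)))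
      (volume.restrict (Metric.ball (0 : EE n) 1)) := fun i _ => (h1 i).sub ((h2 i).const_mul _)
  have h9 : ∫ x in Metric.ball (0 : EE n) 1, ∑ i,
      (ed i (fun y => Real.sqrt (gOf θ y).det * ∑ a, w a y * A y a i) x
        - (n : ℝ) * (nn i x * (Real.sqrt (gOf θ x).det * ∑ a, w a x * A x a i))) = 0 := by
    rw [integral_finsetSum _ h8]
    exact Finset.sum_eq_zero fun i _ => h3 i
  unfold integ
  beta_reduce
  rw [h9, mul_zero]

end Pool.Agent.Helper42.FLGV

namespace Pool.Agent.Helper47.FLG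

open Pool.Agent.Helper47.RFn

theorem p_GDV (hC1 : Goal_C1) (hC2 : Goal_C2) (hC4 : Goal_C4) (hC6 : Goal_C6) (hFRF : Goal_FRF) : G_GDV :=
  Pool.Agent.Helper42.FLGV.main hC1 hC2 hC4 hC6 hFRF

end Pool.Agent.Helper47.FLG
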