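import Pool.Agent.Helper47.FLG.Alg2

/-!
# Project FLG, packet EQF: extension of an orthonormal family of eigenvectors
-/

namespace Pool.Agent.Helper42.FLGE

open Finset Pool.Agent.Helper47.RFn Pool.Agent.Helper47.FLG

lemma dcomm {n : ℕ} (u v : Fin n → ℝ) : dot u v = dot v u := by
  simp only [dot]; exact Finset.sum_congr rfl fun i _ => mul_comm _ _

lemma dlin {n : ℕ} (s t : ℝ) (a b c : Fin n → ℝ) :
    dot (fun i => s * a i + t * b i) c = s * dot a c + t * dot b c := by
  simp only [dot, Finset.mul_sum, ← Finset.sum_add_distrib]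
  exact Finset.sum_congr rfl fun i _ => by ring

lemma dlin' {n : ℕ} (s t : ℝ) (a b c : Fin n → ℝ) :
    dot c (fun i => s * a i + t * b i) = s * dot c a + t * dot c b := by
  rw [dcomm, dlin, dcomm a, dcomm b]

lemma dsmul {n : ℕ} (s : ℝ) (a c : Fin n → ℝ) : dot (fun i => s * a i) c = s * dot a c := by
  simp only [dot, Finset.mul_sum]
  exact Finset.sum_congr rfl fun i _ => by ring

lemma dsmul' {n : ℕ} (s : ℝ) (a c : Fin n → ℝ) : dot c (fun i => s * a i) = s * dot c a := by
  rw [dcomm, dsmul, dcomm a]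

lemma nrm_dot {n : ℕ} (a : Fin n → ℝ) : nrm a = dot a a := by
  simp only [nrm, dot]; exact Finset.sum_congr rfl fun i _ => by ring

lemma nrm_nn {n : ℕ} (a : Fin n → ℝ) : 0 ≤ nrm a := Finset.sum_nonneg fun i _ => sq_nonneg _

lemma inner_dot {n : ℕ} (a b : EuclideanSpace ℝ (Fin n)) : inner ℝ a b = dot a.ofLp b.ofLp := by
  simp only [dot, PiLp.inner_apply, RCLike.inner_apply, conj_trivial]
  exact Finset.sum_congr rfl fun i _ => mul_comm _ _

lemma on_orth {n k : ℕ} (w : Fin k → Fin n → ℝ) (hw : ON w) :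
    Orthonormal ℝ (fun i => (WithLp.toLp 2 (w i) : EuclideanSpace ℝ (Fin n))) := by
  rw [orthonormal_iff_ite]
  intro i j
  rw [inner_dot]
  exact hw i j

lemma on_le {n k : ℕ} (w : Fin k → Fin n → ℝ) (hw : ON w) : k ≤ n := by
  have := (on_orth w hw).linearIndependent.fintype_card_le_finrank
  simpa using this

open Matrix in
lemma spec_ext {k m : ℕ} (M : Matrix (Fin (k + m)) (Fin (k + m)) ℝ) (hM : M.IsSymm)
    (w : Fin k → Fin (k + m) → ℝ) (hw : ON w) (c : Fin k → ℝ) (hc : ∀ i, M *ᵥ w i = c i • w i) :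
    ∃ (u : Fin m → Fin (k + m) → ℝ) (r : Fin m → ℝ), ON u ∧ (∀ i j, dot (w i) (u j) = 0) ∧
      ∀ j, M *ᵥ u j = r j • u j := by
  classical
  set w' : Fin k → EuclideanSpace ℝ (Fin (k + m)) := fun i => WithLp.toLp 2 (w i) with hw'
  have ho : Orthonormal ℝ w' := on_orth w hw
  set T := Matrix.toEuclideanLin M with hT
  have hTa : ∀ v : EuclideanSpace ℝ (Fin (k + m)), T v = WithLp.toLp 2 (M *ᵥ v.ofLp) := fun v => by
    rw [hT, Matrix.toEuclideanLin_apply]
  have hH : M.IsHermitian := by
    rw [Matrix.IsHermitian, Matrix.conjTranspose_eq_transpose_of_trivial]; exact hM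
  have hTs : T.IsSymmetric := Matrix.isHermitian_iff_isSymmetric.1 hH
  set S := Submodule.span ℝ (Set.range w') with hS
  have hmem : ∀ v : EuclideanSpace ℝ (Fin (k + m)), v ∈ Sᗮ ↔ ∀ i, inner ℝ (w' i) v = 0 := by
    intro v
    rw [Submodule.mem_orthogonal]
    constructor
    · intro h i
      exact h _ (Submodule.subset_span ⟨i, rfl⟩)
    · intro h u hu
      refine Submodule.span_induction (p := fun u _ => inner ℝ u v = 0) ?_ ?_ ?_ ?_ hu
      · rintro _ ⟨i, rfl⟩; exact h i
      · simp
      · intro a b _ _ ha hb; rw [inner_add_left, ha, hb, add_zero]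
      · intro a b _ hb; rw [inner_smul_left, hb, mul_zero]
  have hinv : ∀ v ∈ Sᗮ, T v ∈ Sᗮ := by
    intro v hv
    rw [hmem] at hv ⊢
    intro i
    rw [← hTs, hTa]
    have : (M *ᵥ (w' i).ofLp) = c i • (w' i).ofLp := hc i
    rw [this, WithLp.toLp_smul, WithLp.toLp_ofLp, inner_smul_left, hv i, mul_zero]
  have hfr : Module.finrank ℝ Sᗮ = m := by
    have h1 := Submodule.finrank_add_finrank_orthogonal S
    have h2 : Module.finrank ℝ S = k := by
      rw [hS, finrank_span_eq_card ho.linearIndependent, Fintype.card_fin]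
    rw [h2, finrank_euclideanSpace, Fintype.card_fin] at h1
    omega
  have hTr := hTs.restrict_invariant hinv
  set b := hTr.eigenvectorBasis hfr with hb
  refine ⟨fun j => (b j : EuclideanSpace ℝ (Fin (k + m))).ofLp, fun j => hTr.eigenvalues hfr j, ?_, ?_, ?_⟩
  · intro i j
    rw [← inner_dot]
    have := (orthonormal_iff_ite.1 b.orthonormal) i j
    rwa [Submodule.coe_inner] at this
  · intro i j
    have := (hmem (b j : EuclideanSpace ℝ (Fin (k + m)))).1 (b j).2 i
    rwa [inner_dot] at this
  · intro j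
    have h1 := hTr.apply_eigenvectorBasis hfr j
    have h2 := congrArg (fun v : Sᗮ => (v : EuclideanSpace ℝ (Fin (k + m))).ofLp) h1
    simp only [LinearMap.restrict_coe_apply, Submodule.coe_smul] at h2
    rw [← hb, hTa] at h2
    simpa using h2

/-- extension of an orthonormal family of eigenvectors to an orthonormal basis of eigenvectors -/
lemma eig_ext {n k : ℕ} (M : Matrix (Fin n) (Fin n) ℝ) (hM : M.IsSymm)
    (w : Fin k → Fin n → ℝ) (hw : ON w) (c : Fin k → ℝ) (hc : ∀ i, M.mulVec (w i) = c i • w i) :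
    ∃ (O : Fin n → Fin n → ℝ) (r : Fin n → ℝ) (ι : Fin k → Fin n), ON O ∧ Function.Injective ι ∧
      (∀ i, O (ι i) = w i) ∧ (∀ i, r (ι i) = c i) ∧ ∀ a, M.mulVec (O a) = r a • O a := by
  obtain ⟨m, rfl⟩ := Nat.exists_eq_add_of_le (on_le w hw)
  obtain ⟨u, r, hu, hwu, hr⟩ := spec_ext M hM w hw c hc
  refine ⟨Fin.append w u, Fin.append c r, Fin.castAdd m, ?_, Fin.castAdd_injective k m, ?_, ?_, ?_⟩
  · intro i j
    induction i using Fin.addCases with
    | left i =>
      induction j using Fin.addCases with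
      | left j => simp only [Fin.append_left]; rw [hw i j]; simp [Fin.ext_iff]
      | right j =>
        simp only [Fin.append_left, Fin.append_right]; rw [hwu, if_neg]
        intro h; have := congrArg Fin.val h; simp at this; omega
    | right i =>
      induction j using Fin.addCases with
      | left j =>
        simp only [Fin.append_left, Fin.append_right]; rw [dcomm, hwu, if_neg]
        intro h; have := congrArg Fin.val h; simp at this; omega
      | right j => simp only [Fin.append_right]; rw [hu i j]; simp [Fin.ext_iff]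
  · intro i; simp
  · intro i; simp
  · intro a
    induction a using Fin.addCases with
    | left i => simp only [Fin.append_left]; exact hc i
    | right i => simp only [Fin.append_right]; exact hr i

end Pool.Agent.Helper42.FLGE
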